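import Pool.Agent.helper78.HFN.Spec

/-!
# Project HFN (MP_3221a1_ag), row AFF: the affine model
-/

set_option autoImplicit false

open Polynomial Module

namespace Pool.Agent.HFN

noncomputable section

open Pool.Agent.helper97.FP FP97

theorem AFF_ev_mon (z : ℂ × ℂ) (k l : ℕ) (a : ℂ) :
    ev z (monomial l (monomial k a) : AA) = a * (z.1 ^ k * z.2 ^ l) := by
  rw [ev_def, eval_monomial, eval_mul, eval_monomial, ← C_pow, eval_C]
  ring

theorem AFF_Dy_mon (k l : ℕ) (a : ℂ) :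
    Dy (monomial l (monomial k a) : AA) = monomial (l - 1) (monomial k (a * l)) := by
  unfold Dy
  rw [derivative_monomial, ← C_eq_natCast, monomial_mul_C]

theorem AFF_Dx_mon (k l : ℕ) (a : ℂ) :
    Dx (monomial l (monomial k a) : AA) = monomial l (monomial (k - 1) (a * k)) := by
  have h := AFF_Dy_mon l k a
  unfold Dy at h
  unfold Dx sw
  rw [Polynomial.Bivariate.swap_monomial_monomial, h, Polynomial.Bivariate.swap_monomial_monomial]

theorem AFF_mk (i j : ℕ) (v : Fin (i + 1) × Fin (j + 1) → ℂ) :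
    mk i j v = ∑ p, monomial (p.2 : ℕ) (monomial (p.1 : ℕ) (v p)) := rfl

theorem AFF_Dbl (i j : ℕ) (v : VV i j) (z : ℂ × ℂ) : Dbl v z ↔ Db z (mk i j v) := by
  have hDx : Dx (mk i j v) = ∑ p : Fin (i + 1) × Fin (j + 1),
      monomial (p.2 : ℕ) (monomial ((p.1 : ℕ) - 1) (v p * ((p.1 : ℕ) : ℂ))) := by
    rw [AFF_mk]
    have h1 : ∀ s : Finset (Fin (i + 1) × Fin (j + 1)),
        Dx (∑ p ∈ s, monomial (p.2 : ℕ) (monomial (p.1 : ℕ) (v p)) : AA) =
        ∑ p ∈ s, monomial (p.2 : ℕ) (monomial ((p.1 : ℕ) - 1) (v p * ((p.1 : ℕ) : ℂ))) := by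
      intro s
      classical
      induction s using Finset.induction_on with
      | empty => simp
      | insert q s hq ih => rw [Finset.sum_insert hq, Finset.sum_insert hq, Dx_add, ih, AFF_Dx_mon]
    exact h1 Finset.univ
  have hDy : Dy (mk i j v) = ∑ p : Fin (i + 1) × Fin (j + 1),
      monomial ((p.2 : ℕ) - 1) (monomial (p.1 : ℕ) (v p * ((p.2 : ℕ) : ℂ))) := by
    rw [AFF_mk]
    have h1 : ∀ s : Finset (Fin (i + 1) × Fin (j + 1)),
        Dy (∑ p ∈ s, monomial (p.2 : ℕ) (monomial (p.1 : ℕ) (v p)) : AA) =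
        ∑ p ∈ s, monomial ((p.2 : ℕ) - 1) (monomial (p.1 : ℕ) (v p * ((p.2 : ℕ) : ℂ))) := by
      intro s
      classical
      induction s using Finset.induction_on with
      | empty => simp
      | insert q s hq ih => rw [Finset.sum_insert hq, Finset.sum_insert hq, Dy_add, ih, AFF_Dy_mon]
    exact h1 Finset.univ
  unfold Db Dbl
  rw [hDx, hDy, AFF_mk, ev_sum, ev_sum, ev_sum]
  simp only [AFF_ev_mon]
  have e2 : ∀ p : Fin (i + 1) × Fin (j + 1), v p * (((p.1 : ℕ) * z.1 ^ ((p.1 : ℕ) - 1)) * z.2 ^ (p.2 : ℕ)) =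
      v p * ((p.1 : ℕ) : ℂ) * (z.1 ^ ((p.1 : ℕ) - 1) * z.2 ^ (p.2 : ℕ)) := fun p => by ring
  have e3 : ∀ p : Fin (i + 1) × Fin (j + 1), v p * (z.1 ^ (p.1 : ℕ) * ((p.2 : ℕ) * z.2 ^ ((p.2 : ℕ) - 1))) =
      v p * ((p.2 : ℕ) : ℂ) * (z.1 ^ (p.1 : ℕ) * z.2 ^ ((p.2 : ℕ) - 1)) := fun p => by ring
  rw [Finset.sum_congr rfl fun p _ => e2 p, Finset.sum_congr rfl fun p _ => e3 p]

theorem AFF_map (Z : Finset (ℂ × ℂ)) (i j : ℕ) :
    (DV (Z : Set (ℂ × ℂ)) i j).map (mk i j) = V i j ⊓ (JJ Z two).restrictScalars ℂ := by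
  ext f
  rw [Submodule.mem_map, Submodule.mem_inf, Submodule.restrictScalars_mem]
  have hk : ∀ v : VV i j, v ∈ DV (Z : Set (ℂ × ℂ)) i j ↔ mk i j v ∈ JJ Z two := by
    intro v
    rw [mem_JJ]
    constructor
    · intro h z hz
      have h1 := (AFF_Dbl i j v z).1 (h z hz)
      exact ⟨fun _ => h1.1, fun _ => h1⟩
    · intro h z hz
      exact (AFF_Dbl i j v z).2 ((h z hz).2 (by unfold two; norm_num))
  constructor
  · rintro ⟨v, hv, rfl⟩
    exact ⟨mk_mem i j v, (hk v).1 hv⟩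
  · rintro ⟨h1, h2⟩
    rw [← mk_range] at h1
    obtain ⟨v, rfl⟩ := h1
    exact ⟨v, (hk v).2 h2, rfl⟩

theorem AFF_finrank (Z : Finset (ℂ × ℂ)) (i j : ℕ) :
    finrank ℂ (DV (Z : Set (ℂ × ℂ)) i j) = hd (JJ Z two) i j := by
  unfold hd
  rw [← AFF_map]
  exact LinearEquiv.finrank_eq (Submodule.equivMapOfInjective (mk i j) (mk_injective i j) _)

theorem AFF_HH (Z : Finset (ℂ × ℂ)) (i j : ℕ) :
    (((i + 1) * (j + 1) - finrank ℂ (DV (Z : Set (ℂ × ℂ)) i j) : ℕ) : ℤ) = HH Z i j := by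
  unfold HH
  rw [AFF_finrank, Nat.cast_sub]
  unfold hd
  calc finrank ℂ (V i j ⊓ (JJ Z two).restrictScalars ℂ : Submodule ℂ AA) ≤ finrank ℂ (V i j) :=
        Submodule.finrank_mono inf_le_left
    _ = (i + 1) * (j + 1) := finrank_V i j

theorem AFF : AFF_stmt := by
  classical
  constructor
  · intro Y
    obtain ⟨t, s, hg⟩ := exists_good Y
    refine ⟨Y.image (aff t s), ?_, fun i j => ?_⟩
    · refine Finset.card_image_of_injOn ?_
      intro P hP Q hQ h
      exact aff_inj (hg P hP) (hg Q hQ) h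
    · have hset : {z | ∃ P ∈ Y, aff t s P = z} = ((Y.image (aff t s) : Finset (ℂ × ℂ)) : Set (ℂ × ℂ)) := by
        ext z
        simp
      rw [hilbert_eq_DV hg, hset]
      exact AFF_HH _ i j
  · intro Z
    have hinj : Function.Injective pt := by
      intro z w h
      rw [← (pt_good z).2, ← (pt_good w).2, h]
    refine ⟨Z.image pt, Finset.card_image_of_injective _ hinj, fun i j => ?_⟩
    have hg : ∀ P ∈ Z.image pt, Good 0 0 P := by
      intro P hP
      obtain ⟨z, _, rfl⟩ := Finset.mem_image.1 hP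
      exact (pt_good z).1
    have hset : {z | ∃ P ∈ Z.image pt, aff 0 0 P = z} = (Z : Set (ℂ × ℂ)) := by
      ext z
      constructor
      · rintro ⟨P, hP, rfl⟩
        obtain ⟨w, hw, rfl⟩ := Finset.mem_image.1 hP
        rw [(pt_good w).2]
        exact hw
      · intro hz
        exact ⟨pt z, Finset.mem_image_of_mem _ hz, (pt_good z).2⟩
    rw [hilbert_eq_DV hg, hset]
    exact AFF_HH _ i j

end

end Pool.Agent.HFN
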